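import Pool.Agent.TH847.LM.Inter3

/-!
# The classes modulo `m` with many primes below `m ^ (1 + ε)`

The inequality of `Pool.Agent.TH847.LM` (starting files) with the classes that contain a fixed positive
proportion of the expected number of the primes in place of the classes with at least one prime.
-/

set_option autoImplicit false
set_option maxHeartbeats 4000000

namespace Pool.Agent.Y866.LM
open Finset Filter Pool.Agent.W301.SS Pool.Agent.H807R2.Dav
open Pool.Agent.TH847.LM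

/-- the elements `a` of `A` for which the primes `p ≡ a + b (mod m)` in `(m, (J + 1) m]` have at least a
proportion `δ` of the expected mass -/
noncomputable def Hb (δ : ℝ) (m J b : ℕ) (A : Finset ℕ) : Finset ℕ := by
  classical
  exact A.filter (fun a => (a + b).Coprime m ∧ δ * (Th m J / Nat.totient m) ≤ ff m J (a + b))

theorem heavy_sum {δ : ℝ} (hδ : 0 ≤ δ) {m : ℕ} (hm : 0 < m) (J b : ℕ) (A : Finset ℕ) :
    ∑ a ∈ A, ff m J (a + b) ≤ ∑ a ∈ Hb δ m J b A, ff m J (a + b) +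
      δ * (Th m J / Nat.totient m) * (Ab m b A).card := by
  classical
  have h1 : ∀ a ∈ A, ff m J (a + b) ≤
      (if (a + b).Coprime m ∧ δ * (Th m J / Nat.totient m) ≤ ff m J (a + b) then ff m J (a + b) else 0) +
      (if (a + b).Coprime m then δ * (Th m J / Nat.totient m) else 0) := by
    intro a _
    by_cases h2 : (a + b).Coprime m
    · by_cases h3 : δ * (Th m J / Nat.totient m) ≤ ff m J (a + b)
      · rw [if_pos ⟨h2, h3⟩, if_pos h2]
        have h4 : 0 ≤ δ * (Th m J / Nat.totient m) :=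
          mul_nonneg hδ (div_nonneg (Th_nonneg m J) (Nat.cast_nonneg _))
        linarith
      · rw [if_neg (fun h => h3 h.2), if_pos h2, zero_add]
        exact (not_le.1 h3).le
    · rw [if_neg (fun h => h2 h.1), if_neg h2, zero_add]
      by_contra hc
      have h3 : ff m J (a + b) ≠ 0 := by
        intro h
        rw [h] at hc
        exact hc le_rfl
      exact h2 (ff_cop hm h3)
  refine (sum_le_sum h1).trans (le_of_eq ?_)
  rw [sum_add_distrib, ← sum_filter, ← sum_filter, sum_const, nsmul_eq_mul]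
  unfold Hb Pool.Agent.TH847.LM.Ab
  ring

/-- the inequality for one translate -/
theorem core1H {m J D : ℕ} (hm : 2 ≤ m) (hJ : 1 ≤ J) (hD : 3 ≤ D) (hDm : D ≤ m)
    (hφ : (m : ℝ) / Nat.totient m ≤ Real.log D) {A : Finset ℕ} (hA : ∀ a ∈ A, a < m)
    {W : ℝ} (hW : 2 ≤ W) (hAc : (m : ℝ) / W ≤ A.card)
    (hV : (3 * (D : ℝ) ^ 4 + m / J * (1 + 4 * Real.log D) ^ 16) * Real.log ((J + 1) * m : ℕ) ^ 2 ≤
      m / (4 * W ^ 3))
    {δ : ℝ} (hδ0 : 0 ≤ δ) (hδ : δ ≤ 1 / 4) (hTh : (1 - δ) * ((J : ℝ) * m) ≤ Th m J)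
    (hlog : (1 / 4 - δ) * Real.log ((J + 1) * m : ℕ) ≤ Real.log D) (b : ℕ)
    (h1 : |∑ a ∈ A, FF m J (a + b)| ≤ (J : ℝ) * A.card / (2 * W)) :
      (1 - δ) * (1 - δ) * (1 / 4 - δ) * (Ab m b A).card - A.card / W ≤ (Hb δ m J b A).card := by
  classical
  have hm0 : 0 < m := by omega
  have hmr : (0 : ℝ) < m := by exact_mod_cast hm0
  have hJr : (0 : ℝ) < J := by exact_mod_cast hJ
  have hDr : (3 : ℝ) ≤ D := by exact_mod_cast hD
  have hW0 : 0 < W := by linarith
  have hφ0 : 0 < Nat.totient m := Nat.totient_pos.2 hm0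
  have hφr : (0 : ℝ) < Nat.totient m := by exact_mod_cast hφ0
  have hφm : (Nat.totient m : ℝ) ≤ m := by exact_mod_cast Nat.totient_le m
  have hlD : 1 ≤ Real.log D := by
    rw [Real.le_log_iff_exp_le (by linarith)]
    linarith [Real.exp_one_lt_d9]
  set N : ℕ := (J + 1) * m with hN
  have hmN : m ≤ N := Nat.le_mul_of_pos_left m (by omega)
  have hDN : Real.log D ≤ Real.log N := by
    apply Real.log_le_log (by linarith)
    exact_mod_cast hDm.trans hmN
  have hlN : 1 ≤ Real.log N := hlD.trans hDN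
  have hAr : (0 : ℝ) < A.card := lt_of_lt_of_le (by positivity) hAc
  obtain ⟨l, l1, l2, _, _, l5, l6, l7⟩ := Pool.Agent.H376R2.TT.sel_weights_q m (by omega) D (by omega)
  have emv : mv l D = ∑ d ∈ Icc 1 D, ∑ e ∈ Icc 1 D, l d * l e / (Nat.lcm d e : ℝ) := by
    unfold mv DD
    rw [sum_product]
  rw [← emv] at l6 l7
  have hmv1 : mv l D ≤ 1 := by
    refine l7.trans ?_
    rw [div_le_one (by linarith)]
    exact hφ
  have hvar := varianceM l l2 D (by omega) l6 hmv1 m J m 0 hJ l5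
  set V : ℝ := 3 * (D : ℝ) ^ 4 + m / J * (1 + 4 * Real.log D) ^ 16 with hVdef
  have hV0 : 0 ≤ V := by
    rw [hVdef]
    have : 0 ≤ 1 + 4 * Real.log D := by linarith
    positivity
  set lam : ℝ := (J : ℝ) * A.card / (2 * W) with hlam
  have hlam0 : 0 ≤ lam := by rw [hlam]; positivity
  set nA : ℝ := ((Ab m b A).card : ℝ) with hnA
  set nG : ℝ := ((Hb δ m J b A).card : ℝ) with hnG
  have hnA0 : 0 ≤ nA := Nat.cast_nonneg _
  have hnG0 : 0 ≤ nG := Nat.cast_nonneg _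
  have h2 : ∑ a ∈ A, FF m J (a + b) = ∑ a ∈ A, ff m J (a + b) - Th m J / Nat.totient m * nA := by
    unfold FF
    rw [sum_sub_distrib, ← mul_sum, ← sum_filter, sum_const, nsmul_eq_mul, mul_one]
    congr 3
  have h3 := heavy_sum hδ0 hm0 J b A
  have hGA : Hb δ m J b A ⊆ A := by unfold Hb; exact filter_subset _ _
  have h4 := key l1 hm0 hJ (by omega : 1 ≤ D) hDm hA b V hvar (Hb δ m J b A) hGA
  rw [← hN, ← hnG] at h4
  rw [← hnA] at h3
  rw [h2] at h1
  have h5 := (abs_le.1 h1).1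
  -- the square root
  have h6 : Real.log N * √((A.card : ℝ) * V) ≤ A.card / (2 * W) := by
    have a1 : Real.log N * √((A.card : ℝ) * V) = √((A.card : ℝ) * (V * Real.log N ^ 2)) := by
      have : (A.card : ℝ) * (V * Real.log N ^ 2) = Real.log N ^ 2 * ((A.card : ℝ) * V) := by ring
      rw [this, Real.sqrt_mul (sq_nonneg (Real.log (N : ℝ))) ((A.card : ℝ) * V),
        Real.sqrt_sq (by linarith)]
    rw [a1]
    apply Real.sqrt_le_iff.2 ⟨by positivity, ?_⟩
    calc (A.card : ℝ) * (V * Real.log N ^ 2) ≤ A.card * (m / (4 * W ^ 3)) := by gcongr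
      _ = A.card * ((m / W) / (4 * W ^ 2)) := by field_simp
      _ ≤ A.card * (A.card / (4 * W ^ 2)) := by gcongr
      _ = _ := by field_simp; ring
  -- the main inequality, divided by `J`
  have h1δ : 0 ≤ 1 - δ := by linarith
  have h7 : (1 - δ) * (1 - δ) * ((m : ℝ) / Nat.totient m) * nA - A.card / W ≤
      Real.log N / Real.log D * ((m : ℝ) / Nat.totient m) * nG := by
    have b1 : (J : ℝ) * ((1 - δ) * (1 - δ) * ((m : ℝ) / Nat.totient m) * nA) ≤
        (1 - δ) * (Th m J / Nat.totient m * nA) := by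
      calc _ = (1 - δ) * (((1 - δ) * ((J : ℝ) * m)) / Nat.totient m * nA) := by ring
        _ ≤ _ := by gcongr
    have b2 : Real.log N * (J * (nG * mv l D + √((A.card : ℝ) * V))) ≤
        J * (Real.log N / Real.log D * ((m : ℝ) / Nat.totient m) * nG + A.card / (2 * W)) := by
      calc _ = J * (nG * (Real.log N * mv l D) + Real.log N * √((A.card : ℝ) * V)) := by ring
        _ ≤ J * (nG * (Real.log N * (((m : ℝ) / Nat.totient m) / Real.log D)) + A.card / (2 * W)) := by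
          gcongr
        _ = _ := by ring
    have b3 : lam = J * (A.card / (2 * W)) := by rw [hlam]; ring
    have b4 : (J : ℝ) * ((1 - δ) * (1 - δ) * ((m : ℝ) / Nat.totient m) * nA - A.card / W) ≤
        J * (Real.log N / Real.log D * ((m : ℝ) / Nat.totient m) * nG) := by
      have e : (A.card : ℝ) / W = A.card / (2 * W) + A.card / (2 * W) := by field_simp; norm_num
      rw [e]
      linarith [b1, b2, h3, h4, h5, b3]
    exact le_of_mul_le_mul_left b4 hJr
  have h8 : 0 < Real.log D / Real.log N * (Nat.totient m / m) := by positivity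
  have h9 := mul_le_mul_of_nonneg_left h7 h8.le
  have h10 : Real.log D / Real.log N * (Nat.totient m / m) *
      (Real.log N / Real.log D * ((m : ℝ) / Nat.totient m) * nG) = nG := by
    have : Real.log D ≠ 0 := by linarith
    have : Real.log N ≠ 0 := by linarith
    field_simp
  rw [h10] at h9
  refine le_trans ?_ h9
  have h11 : 1 / 4 - δ ≤ Real.log D / Real.log N := by
    rw [le_div_iff₀ (by linarith)]; exact hlog
  have h12 : Real.log D / Real.log N ≤ 1 := by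
    rw [div_le_one (by linarith)]; exact hDN
  have h13 : (Nat.totient m : ℝ) / m ≤ 1 := by
    rw [div_le_one hmr]; exact hφm
  have h14 : Real.log D / Real.log N * (Nat.totient m / m) ≤ 1 := by
    have : 0 ≤ (Nat.totient m : ℝ) / m := by positivity
    have : 0 ≤ Real.log D / Real.log N := by positivity
    nlinarith
  have h15 : Real.log D / Real.log N * (Nat.totient m / m) *
      ((1 - δ) * (1 - δ) * ((m : ℝ) / Nat.totient m) * nA) =
      (1 - δ) * (1 - δ) * (Real.log D / Real.log N) * nA := by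
    field_simp
  have h16 : (1 - δ) * (1 - δ) * (1 / 4 - δ) * nA ≤
      (1 - δ) * (1 - δ) * (Real.log D / Real.log N) * nA := by
    gcongr
  have h17 : Real.log D / Real.log N * (Nat.totient m / m) * (A.card / W) ≤ A.card / W := by
    have : 0 ≤ (A.card : ℝ) / W := by positivity
    nlinarith
  rw [mul_sub (Real.log D / Real.log N * (Nat.totient m / m)), h15]
  linarith

theorem analysis1H (δ : ℝ) (hδ : 0 < δ) (hδ1 : δ ≤ 1 / 8) : ∀ᶠ m : ℕ in atTop, ∀ (J : ℕ) (W : ℝ), 2 ≤ W →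
    (Real.log m ^ 10 * W ^ 3) ^ 2 ≤ J → (J : ℝ) ≤ (m : ℝ) ^ (δ / 2) →
    ∀ A : Finset ℕ, (∀ a ∈ A, a < m) → (m : ℝ) / W ≤ A.card → ∀ b : ℕ,
    |∑ a ∈ A, FF m J (a + b)| ≤ (J : ℝ) * A.card / (2 * W) →
      (1 - δ) * (1 - δ) * (1 / 4 - δ) * (Ab m b A).card - A.card / W ≤ (Hb δ m J b A).card := by
  obtain ⟨N₀, hN₀⟩ := eventually_atTop.1 (pnt_unif 1)
  filter_upwards [sizes δ hδ hδ1, ev_L (4 / δ + 2048), eventually_ge_atTop 16,
    eventually_ge_atTop N₀, ev_log 0 3 ((1 - δ) / 4) (by linarith), phi_ev (1 / 16) (by norm_num),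
    ev_log 2 96 (δ / 2) (by positivity)] with m hs h1 hm16 hmN₀ h3 hphi h96 J W hW hJ1 hJ2 A hA hAc b hb
  obtain ⟨hJ, hW3m, hN2, hLN, hLN2⟩ := hs J W hW hJ1 hJ2
  have hmr : (16 : ℝ) ≤ m := by exact_mod_cast hm16
  have hm0 : (0 : ℝ) < m := by linarith
  have hm1 : (1 : ℝ) ≤ m := by linarith
  set ℓ := Real.log m with hℓ
  have hd1 : 0 < 4 / δ := by positivity
  have hℓ4 : 2048 ≤ ℓ := by linarith
  have hℓ1 : 1 ≤ ℓ := by linarith
  have hℓ0 : 0 < ℓ := by linarith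
  have hW0 : 0 < W := by linarith
  have hW31 : 1 ≤ W ^ 3 := one_le_pow₀ (by linarith)
  have hW30 : 0 < W ^ 3 := by positivity
  have hJr : (1 : ℝ) ≤ J := by exact_mod_cast hJ
  have hJ0 : (0 : ℝ) < J := by linarith
  rw [pow_zero, mul_one] at h3
  set D : ℕ := ⌊(m : ℝ) ^ ((1 - δ) / 4)⌋₊ with hD
  have hDle : (D : ℝ) ≤ (m : ℝ) ^ ((1 - δ) / 4) := Nat.floor_le (by positivity)
  have hD3 : 3 ≤ D := Nat.le_floor (by exact_mod_cast h3)
  have hDr : (3 : ℝ) ≤ D := by exact_mod_cast hD3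
  have hDge : (m : ℝ) ^ ((1 - δ) / 4) ≤ 2 * D := by
    have := Nat.lt_floor_add_one ((m : ℝ) ^ ((1 - δ) / 4))
    rw [← hD] at this
    linarith
  have hDm : D ≤ m := by
    have : (D : ℝ) ≤ m := by
      refine hDle.trans ?_
      calc (m : ℝ) ^ ((1 - δ) / 4) ≤ (m : ℝ) ^ (1 : ℝ) :=
            Real.rpow_le_rpow_of_exponent_le hm1 (by linarith)
        _ = m := Real.rpow_one _
    exact_mod_cast this
  have hlogD : (1 - 2 * δ) / 4 * ℓ ≤ Real.log D := by
    have a1 := Real.log_le_log (by positivity) hDge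
    rw [Real.log_rpow hm0, Real.log_mul (by norm_num) (by linarith)] at a1
    have a2 := Real.log_two_lt_d9
    have a3 : 1 ≤ δ * ℓ / 4 := by
      have : 4 / δ ≤ ℓ := by linarith
      rw [div_le_iff₀ hδ] at this
      linarith
    nlinarith
  have hlogD2 : 1 + 4 * Real.log D ≤ 2 * ℓ := by
    have a1 := Real.log_le_log (by linarith) hDle
    rw [Real.log_rpow hm0] at a1
    nlinarith
  have hlogD0 : 0 ≤ 1 + 4 * Real.log D := by
    have := Real.log_nonneg (show (1 : ℝ) ≤ D by linarith)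
    linarith
  have hD4 : (D : ℝ) ^ 4 ≤ (m : ℝ) ^ (1 - δ) := by
    calc (D : ℝ) ^ 4 ≤ ((m : ℝ) ^ ((1 - δ) / 4)) ^ 4 := pow_le_pow_left₀ (by positivity) hDle 4
      _ = _ := by
        rw [← Real.rpow_natCast, ← Real.rpow_mul hm0.le]
        congr 1; push_cast; ring
  set N : ℕ := (J + 1) * m with hNdef
  have hN : (N : ℝ) = (J + 1) * m := by rw [hNdef]; push_cast; ring
  have hN0 : (0 : ℝ) < N := by rw [hN]; positivity
  have hmN : m ≤ N := Nat.le_mul_of_pos_left m (by omega)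
  have hLN1 : Real.log N ≤ 2 * ℓ := by nlinarith
  have hLN0 : 0 < Real.log N := by linarith
  refine core1H (δ := δ) (by omega) hJ hD3 hDm ?_ hA hW hAc ?_ hδ.le (by linarith) ?_ ?_ b hb
  · -- the totient function
    refine hphi.trans ?_
    refine le_trans ?_ hlogD
    nlinarith
  · -- the variance
    have a1 : (1 + 4 * Real.log D) ^ 16 ≤ (2 * ℓ) ^ 16 := pow_le_pow_left₀ hlogD0 hlogD2 16
    have a2 : Real.log N ^ 2 ≤ (2 * ℓ) ^ 2 := pow_le_pow_left₀ hLN0.le hLN1 2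
    have hP0 : 0 < (ℓ ^ 10 * W ^ 3) ^ 2 := by positivity
    have a3 : (m : ℝ) / J ≤ m / (ℓ ^ 10 * W ^ 3) ^ 2 := by gcongr
    have a4 : 96 * ℓ ^ 2 * W ^ 3 ≤ (m : ℝ) ^ δ := by
      calc 96 * ℓ ^ 2 * W ^ 3 ≤ (m : ℝ) ^ (δ / 2) * (m : ℝ) ^ (δ / 4) := by gcongr
        _ = (m : ℝ) ^ (δ / 2 + δ / 4) := (Real.rpow_add hm0 _ _).symm
        _ ≤ (m : ℝ) ^ δ := Real.rpow_le_rpow_of_exponent_le hm1 (by linarith)
    have a5 : 12 * ℓ ^ 2 * (m : ℝ) ^ (1 - δ) ≤ m / (8 * W ^ 3) := by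
      rw [le_div_iff₀ (by positivity)]
      have e : (m : ℝ) = (m : ℝ) ^ (1 - δ) * (m : ℝ) ^ δ := by
        rw [← Real.rpow_add hm0]; simp
      calc 12 * ℓ ^ 2 * (m : ℝ) ^ (1 - δ) * (8 * W ^ 3) = (m : ℝ) ^ (1 - δ) * (96 * ℓ ^ 2 * W ^ 3) := by ring
        _ ≤ (m : ℝ) ^ (1 - δ) * (m : ℝ) ^ δ := by gcongr
        _ = m := e.symm
    have a6 : (m : ℝ) / (ℓ ^ 10 * W ^ 3) ^ 2 * (2 * ℓ) ^ 16 * (2 * ℓ) ^ 2 ≤ m / (8 * W ^ 3) := by
      have e : (m : ℝ) / (ℓ ^ 10 * W ^ 3) ^ 2 * (2 * ℓ) ^ 16 * (2 * ℓ) ^ 2 =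
          (2 ^ 18 / (ℓ ^ 2 * W ^ 3)) * (m / W ^ 3) := by field_simp
      have e2 : (m : ℝ) / (8 * W ^ 3) = 1 / 8 * (m / W ^ 3) := by field_simp
      rw [e, e2]
      apply mul_le_mul_of_nonneg_right _ (by positivity)
      rw [div_le_div_iff₀ (by positivity) (by norm_num)]
      have : (2 : ℝ) ^ 21 ≤ ℓ ^ 2 := by nlinarith
      calc (2 : ℝ) ^ 18 * 8 = 2 ^ 21 * 1 := by norm_num
        _ ≤ ℓ ^ 2 * W ^ 3 := by gcongr
        _ = _ := by ring
    calc (3 * (D : ℝ) ^ 4 + m / J * (1 + 4 * Real.log D) ^ 16) * Real.log N ^ 2 ≤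
          (3 * (m : ℝ) ^ (1 - δ) + m / (ℓ ^ 10 * W ^ 3) ^ 2 * (2 * ℓ) ^ 16) * (2 * ℓ) ^ 2 := by gcongr
      _ = 12 * ℓ ^ 2 * (m : ℝ) ^ (1 - δ) + m / (ℓ ^ 10 * W ^ 3) ^ 2 * (2 * ℓ) ^ 16 * (2 * ℓ) ^ 2 := by ring
      _ ≤ m / (8 * W ^ 3) + m / (8 * W ^ 3) := add_le_add a5 a6
      _ = _ := by ring
  · -- the total mass
    have a1 := hN₀ N (hmN₀.trans hmN) N (by omega)
    have a2 := hN₀ N (hmN₀.trans hmN) m (by omega)
    rw [pow_one] at a1 a2
    have a3 : (N : ℝ) / Real.log N ≤ δ / 2 * (J * m) := by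
      rw [div_le_iff₀ hLN0]
      have b1 : 4 ≤ δ * Real.log N := by
        have : 4 / δ ≤ Real.log N := by linarith
        rw [div_le_iff₀ hδ] at this
        linarith
      calc (N : ℝ) ≤ 2 * (J * m) := hN2
        _ = 1 / 2 * 4 * (J * m) := by ring
        _ ≤ 1 / 2 * (δ * Real.log N) * (J * m) := by gcongr
        _ = _ := by ring
    unfold Th
    rw [← hNdef]
    rw [abs_le] at a1 a2
    have e : (N : ℝ) = J * m + m := by rw [hN]; ring
    linarith [a1.1, a2.2]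
  · -- the logarithms
    calc (1 / 4 - δ) * Real.log N ≤ (1 / 4 - δ) * ((1 + δ) * ℓ) := by
          apply mul_le_mul_of_nonneg_left hLN (by linarith)
      _ ≤ (1 - 2 * δ) / 4 * ℓ := by nlinarith
      _ ≤ _ := hlogD

end Pool.Agent.Y866.LM
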