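import Pool.Agent.Y866.LM.Heavy

/-!
# Intervals of classes modulo `m` with many primes below `m ^ (1 + ε)`
-/

set_option autoImplicit false
set_option maxHeartbeats 4000000

namespace Pool.Agent.Y866.LM
open Finset Filter Pool.Agent.W301.SS Pool.Agent.H807R2.Dav
open Pool.Agent.TH847.LM

theorem inter_anaH (δ : ℝ) (hδ : 0 < δ) (hδ1 : δ ≤ 1 / 8) : ∀ᶠ m : ℕ in atTop, ∀ (J : ℕ) (W : ℝ), 4 ≤ W →
    (Real.log m ^ 10 * W ^ 3) ^ 2 ≤ J → (J : ℝ) ≤ (m : ℝ) ^ (δ / 2) →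
    ∀ H : ℕ, H ≤ m → (m : ℝ) / W ≤ H →
    ∃ E : Finset ℕ, E ⊆ range m ∧ (E.card : ℝ) ≤ m / W ∧ ∀ b ∈ range m, b ∉ E →
      (1 - δ) * (1 - δ) * (1 / 4 - δ) * (Ab m b (range H)).card - H / W ≤ (Hb δ m J b (range H)).card := by
  classical
  filter_upwards [sizes δ hδ hδ1, four_ana δ hδ hδ1, analysis1H δ hδ hδ1, ev_L 64, eventually_ge_atTop 2,
    ev_log 22 1 (1 / 2) (by norm_num)] with m hs hfour hana hℓ64 hm h22 J W hW hJ1 hJ2 H hHm hH
  obtain ⟨hJ, hW3m, hN2, hLN, hLN2⟩ := hs J W (by linarith) hJ1 hJ2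
  have hmr : (2 : ℝ) ≤ m := by exact_mod_cast hm
  have hm0 : (0 : ℝ) < m := by linarith
  have hm1 : (1 : ℝ) ≤ m := by linarith
  set ℓ := Real.log m with hℓ
  have hℓ1 : 1 ≤ ℓ := by linarith
  have hℓ0 : 0 < ℓ := by linarith
  have hW0 : 0 < W := by linarith
  have hW1 : 1 ≤ W := by linarith
  have hJr : (1 : ℝ) ≤ J := by exact_mod_cast hJ
  have hJ0 : (0 : ℝ) < J := by linarith
  have hHr : (0 : ℝ) < H := lt_of_lt_of_le (by positivity) hH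
  set T : ℝ := ℓ ^ 2 * W ^ 3 with hT
  have hT0 : 0 < T := by positivity
  set LN := Real.log ((J + 1) * m : ℕ) with hLNdef
  -- the Fourier coefficients at the near frequencies
  have hnear : ∀ c ∈ range m, ¬ (T ≤ c ∧ T ≤ (m : ℝ) - c) →
      ‖∑ n ∈ range m, ((FF m J n : ℝ) : ℂ) * ee ((n : ℝ) * ((c : ℝ) / m))‖ ≤ (J : ℝ) * m / W ^ 3 := by
    intro c hc hcT
    rw [mem_range] at hc
    rcases Nat.eq_zero_or_pos c with h0 | hc0
    · rw [h0, FF_zero (by omega), norm_zero]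
      positivity
    · apply hfour J W (by linarith) hJ1 hJ2
      have hg : ((c.gcd m : ℕ) : ℝ) ≤ T := by
        by_cases h1 : T ≤ c
        · have h2 : ¬ T ≤ (m : ℝ) - c := fun h => hcT ⟨h1, h⟩
          have h3 : c.gcd m ∣ m - c := Nat.dvd_sub (Nat.gcd_dvd_right _ _) (Nat.gcd_dvd_left _ _)
          have h4 : c.gcd m ≤ m - c := Nat.le_of_dvd (by omega) h3
          have h5 : ((c.gcd m : ℕ) : ℝ) ≤ ((m - c : ℕ) : ℝ) := by exact_mod_cast h4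
          rw [Nat.cast_sub hc.le] at h5
          linarith
        · have h4 : c.gcd m ≤ c := Nat.le_of_dvd hc0 (Nat.gcd_dvd_left _ _)
          have h5 : ((c.gcd m : ℕ) : ℝ) ≤ c := by exact_mod_cast h4
          linarith
      have hg0 : 0 < c.gcd m := Nat.gcd_pos_of_pos_left _ hc0
      have hg0r : (0 : ℝ) < (c.gcd m : ℕ) := by exact_mod_cast hg0
      rw [Nat.cast_div (Nat.gcd_dvd_right _ _) hg0r.ne']
      have h1 : (ℓ ^ 10 * W ^ 3) ^ 2 * T ≤ m := by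
        have hW31 : 0 ≤ W ^ 3 := by positivity
        have a1 : W ^ 9 ≤ (m : ℝ) ^ (1 / 2 : ℝ) := by
          calc W ^ 9 = (W ^ 3) ^ 3 := by ring
            _ ≤ ((m : ℝ) ^ (δ / 4)) ^ 3 := pow_le_pow_left₀ hW31 hW3m 3
            _ = (m : ℝ) ^ (δ / 4 * 3) := by
              rw [← Real.rpow_natCast, ← Real.rpow_mul hm0.le]
              norm_num
            _ ≤ _ := Real.rpow_le_rpow_of_exponent_le hm1 (by linarith)
        have a2 : ℓ ^ 22 ≤ (m : ℝ) ^ (1 / 2 : ℝ) := by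
          rw [one_mul] at h22
          exact h22
        calc (ℓ ^ 10 * W ^ 3) ^ 2 * T = ℓ ^ 22 * W ^ 9 := by rw [hT]; ring
          _ ≤ (m : ℝ) ^ (1 / 2 : ℝ) * (m : ℝ) ^ (1 / 2 : ℝ) := by gcongr
          _ = m := by rw [← Real.rpow_add hm0]; norm_num
      rw [le_div_iff₀ hg0r]
      refine le_trans ?_ h1
      gcongr
  -- the variance
  set G : ℕ → ℝ := fun b => ∑ a ∈ range H, FF m J (a + b) with hG
  have hvar := varE (M := m) (by omega) (FF m J) (FF_per m J) (range H)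
  have hpars := parsevalF (M := m) (by omega) (fun n => ((FF m J n : ℝ) : ℂ))
  have hFFabs : ∀ n, (FF m J n) ^ 2 ≤ 196 * (J : ℝ) ^ 2 * ℓ ^ 2 := by
    intro n
    have h1 := FF_abs (m := m) (by omega) hJ n
    rw [← hLNdef, ← hℓ] at h1
    have h2 : |FF m J n| ≤ 14 * J * ℓ := by
      refine h1.trans ?_
      have : LN ≤ 2 * ℓ := by nlinarith
      calc (J : ℝ) * LN + 4 * J * (1 + 2 * ℓ) ≤ J * (2 * ℓ) + 4 * J * (ℓ + 2 * ℓ) := by gcongr
        _ = _ := by ring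
    calc (FF m J n) ^ 2 = |FF m J n| ^ 2 := (sq_abs _).symm
      _ ≤ (14 * J * ℓ) ^ 2 := pow_le_pow_left₀ (abs_nonneg _) h2 2
      _ = _ := by ring
  have hFFsum : ∑ n ∈ range m, ‖((FF m J n : ℝ) : ℂ)‖ ^ 2 ≤ m * (196 * (J : ℝ) ^ 2 * ℓ ^ 2) := by
    have : ∀ n ∈ range m, ‖((FF m J n : ℝ) : ℂ)‖ ^ 2 ≤ 196 * (J : ℝ) ^ 2 * ℓ ^ 2 := by
      intro n _
      rw [Complex.norm_real, Real.norm_eq_abs, sq_abs]
      exact hFFabs n
    refine (sum_le_sum this).trans ?_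
    rw [sum_const, card_range, nsmul_eq_mul]
  have hH0 : ∀ a ∈ range H, a < m := fun a ha => by rw [mem_range] at ha; omega
  have hpA := parseval (M := m) (by omega) (range H) hH0
  rw [card_range] at hpA
  have hV1 : (m : ℝ) * ∑ b ∈ range m, (G b) ^ 2 ≤
      ((J : ℝ) * m / W ^ 3) ^ 2 * (m * H) + (m / T) ^ 2 * (m * (m * (196 * (J : ℝ) ^ 2 * ℓ ^ 2))) := by
    rw [hG]
    simp only []
    rw [hvar]
    have h1 : ∀ c ∈ range m, ‖FA (range H) ((c : ℝ) / m)‖ ^ 2 *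
        ‖∑ n ∈ range m, ((FF m J n : ℝ) : ℂ) * ee ((n : ℝ) * ((c : ℝ) / m))‖ ^ 2 ≤
        ((J : ℝ) * m / W ^ 3) ^ 2 * ‖FA (range H) ((c : ℝ) / m)‖ ^ 2 +
        (m / T) ^ 2 * ‖∑ n ∈ range m, ((FF m J n : ℝ) : ℂ) * ee ((n : ℝ) * ((c : ℝ) / m))‖ ^ 2 := by
      intro c hc
      set X := ‖FA (range H) ((c : ℝ) / m)‖ with hX
      set Y := ‖∑ n ∈ range m, ((FF m J n : ℝ) : ℂ) * ee ((n : ℝ) * ((c : ℝ) / m))‖ with hY
      have hX0 : 0 ≤ X := norm_nonneg _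
      have hY0 : 0 ≤ Y := norm_nonneg _
      by_cases hcT : T ≤ c ∧ T ≤ (m : ℝ) - c
      · have h2 := FA_range (m := m) (by omega) H c (mem_range.1 hc) T hT0 hcT.1 hcT.2
        rw [← hX] at h2
        have h3 : X ^ 2 ≤ (m / T) ^ 2 := pow_le_pow_left₀ hX0 h2 2
        have h4 : 0 ≤ ((J : ℝ) * m / W ^ 3) ^ 2 * X ^ 2 := by positivity
        have h5 : X ^ 2 * Y ^ 2 ≤ (m / T) ^ 2 * Y ^ 2 := mul_le_mul_of_nonneg_right h3 (by positivity)
        linarith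
      · have h2 := hnear c hc hcT
        rw [← hY] at h2
        have h3 : Y ^ 2 ≤ ((J : ℝ) * m / W ^ 3) ^ 2 := pow_le_pow_left₀ hY0 h2 2
        have h4 : 0 ≤ ((m : ℝ) / T) ^ 2 * Y ^ 2 := by positivity
        have h5 : X ^ 2 * Y ^ 2 ≤ ((J : ℝ) * m / W ^ 3) ^ 2 * X ^ 2 := by
          rw [mul_comm]
          exact mul_le_mul_of_nonneg_right h3 (by positivity)
        linarith
    refine (sum_le_sum h1).trans ?_
    rw [sum_add_distrib, ← mul_sum, ← mul_sum, hpA, hpars]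
    gcongr
  -- the exceptional set
  set lam : ℝ := (J : ℝ) * H / (2 * W) with hlam
  have hlam0 : 0 < lam := by positivity
  set E : Finset ℕ := (range m).filter (fun b => lam < |G b|) with hE
  have hEV : (E.card : ℝ) * lam ^ 2 ≤ ∑ b ∈ range m, (G b) ^ 2 := by
    calc (E.card : ℝ) * lam ^ 2 = ∑ b ∈ E, lam ^ 2 := by rw [sum_const, nsmul_eq_mul]
      _ ≤ ∑ b ∈ E, (G b) ^ 2 := by
        apply sum_le_sum
        intro b hb
        rw [hE, mem_filter] at hb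
        rw [← sq_abs (G b)]
        exact pow_le_pow_left₀ hlam0.le hb.2.le 2
      _ ≤ _ := sum_le_sum_of_subset_of_nonneg (filter_subset _ _) (fun _ _ _ => sq_nonneg _)
  refine ⟨E, filter_subset _ _, ?_, ?_⟩
  · have h1 : (E.card : ℝ) * ((J : ℝ) ^ 2 * H ^ 2 / (4 * W ^ 2)) ≤
        (J : ℝ) ^ 2 * m ^ 2 * H / W ^ 6 + 196 * (J : ℝ) ^ 2 * m ^ 3 / (ℓ ^ 2 * W ^ 6) := by
      have e1 : lam ^ 2 = (J : ℝ) ^ 2 * H ^ 2 / (4 * W ^ 2) := by rw [hlam]; field_simp; ring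
      rw [← e1]
      have h2 : (m : ℝ) * ((E.card : ℝ) * lam ^ 2) ≤
          m * ((J : ℝ) ^ 2 * m ^ 2 * H / W ^ 6 + 196 * (J : ℝ) ^ 2 * m ^ 3 / (ℓ ^ 2 * W ^ 6)) := by
        calc (m : ℝ) * ((E.card : ℝ) * lam ^ 2) ≤ m * ∑ b ∈ range m, (G b) ^ 2 := by gcongr
          _ ≤ _ := hV1
          _ = _ := by rw [hT]; field_simp
      exact le_of_mul_le_mul_left h2 hm0
    have h3 : (E.card : ℝ) * H ^ 2 ≤ 4 * m ^ 2 * H / W ^ 4 + 784 * m ^ 3 / (ℓ ^ 2 * W ^ 4) := by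
      have h4 : ((J : ℝ) ^ 2 / (4 * W ^ 2)) * ((E.card : ℝ) * H ^ 2) ≤
          ((J : ℝ) ^ 2 / (4 * W ^ 2)) * (4 * m ^ 2 * H / W ^ 4 + 784 * m ^ 3 / (ℓ ^ 2 * W ^ 4)) := by
        calc _ = (E.card : ℝ) * ((J : ℝ) ^ 2 * H ^ 2 / (4 * W ^ 2)) := by ring
          _ ≤ _ := h1
          _ = _ := by field_simp; ring
      exact le_of_mul_le_mul_left h4 (by positivity)
    have hmH : (m : ℝ) ≤ W * H := by
      rw [div_le_iff₀ hW0] at hH
      linarith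
    have h5 : 4 * (m : ℝ) ^ 2 * H / W ^ 4 ≤ (4 / W ^ 3) * m * H ^ 2 := by
      calc 4 * (m : ℝ) ^ 2 * H / W ^ 4 = 4 * m * H / W ^ 4 * m := by ring
        _ ≤ 4 * m * H / W ^ 4 * (W * H) := by gcongr
        _ = _ := by field_simp
    have h6 : 784 * (m : ℝ) ^ 3 / (ℓ ^ 2 * W ^ 4) ≤ (784 / (ℓ ^ 2 * W ^ 2)) * m * H ^ 2 := by
      calc 784 * (m : ℝ) ^ 3 / (ℓ ^ 2 * W ^ 4) = 784 * m / (ℓ ^ 2 * W ^ 4) * m ^ 2 := by ring
        _ ≤ 784 * m / (ℓ ^ 2 * W ^ 4) * (W * H) ^ 2 := by gcongr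
        _ = _ := by field_simp
    have h7 : (E.card : ℝ) * H ^ 2 ≤ (m / W) * H ^ 2 := by
      have a1 : 4 / W ^ 3 ≤ 1 / (2 * W) := by
        rw [div_le_div_iff₀ (by positivity) (by positivity)]
        nlinarith [pow_pos hW0 2]
      have a2 : 784 / (ℓ ^ 2 * W ^ 2) ≤ 1 / (2 * W) := by
        rw [div_le_div_iff₀ (by positivity) (by positivity)]
        have : 4096 ≤ ℓ ^ 2 := by nlinarith
        have b2 : 4 * W ≤ W ^ 2 := by nlinarith
        calc 784 * (2 * W) ≤ 4096 * (4 * W) := by linarith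
          _ ≤ ℓ ^ 2 * W ^ 2 := by gcongr
          _ = _ := by ring
      calc (E.card : ℝ) * H ^ 2 ≤ (4 / W ^ 3) * m * H ^ 2 + (784 / (ℓ ^ 2 * W ^ 2)) * m * H ^ 2 := by
            linarith
        _ ≤ (1 / (2 * W)) * m * H ^ 2 + (1 / (2 * W)) * m * H ^ 2 := by gcongr
        _ = _ := by field_simp; ring
    exact le_of_mul_le_mul_right h7 (by positivity)
  · intro b hb hbE
    have h1 : |G b| ≤ lam := by
      by_contra hc
      exact hbE (mem_filter.2 ⟨hb, not_le.1 hc⟩)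
    have h2 := hana J W (by linarith) hJ1 hJ2 (range H) hH0 (by rw [card_range]; exact hH) b
      (by rw [card_range]; exact h1)
    rw [card_range] at h2
    exact h2

end Pool.Agent.Y866.LM
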