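import Pool.Agent.Y866.LM.Heavy2
import Pool.Agent.Y866.PP.Prim2

/-!
# Progressions of primes below `m ^ (1 + ε)` in the classes modulo `m`
-/

set_option autoImplicit false
set_option maxHeartbeats 4000000

namespace Pool.Agent.Y866.LM
open Finset Filter Pool.Agent.W301.SS Pool.Agent.H807R2.Dav
open Pool.Agent.TH847.LM
open Pool.Agent.Y866.PP (PROG prog_interval)

/-- the reduced classes which contain a progression of `k` primes less than `m ^ (1 + ε)` with a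
difference at most `m (log m) ^ B` -/
def GoodK (k B m : ℕ) (ε : ℝ) (c : ℕ) : Prop :=
  c.Coprime m ∧ ∃ p r : ℕ, 1 ≤ r ∧ (r : ℝ) ≤ Real.log m ^ B ∧ ∀ j < k, (p + j * (m * r)).Prime ∧
    p + j * (m * r) ≡ c [MOD m] ∧ ((p + j * (m * r) : ℕ) : ℝ) < (m : ℝ) ^ (1 + ε)

lemma GoodK_per (k B m : ℕ) (ε : ℝ) (n : ℕ) : GoodK k B m ε (n + m) ↔ GoodK k B m ε n := by
  unfold GoodK
  have e1 : (n + m).Coprime m ↔ n.Coprime m := by
    unfold Nat.Coprime
    rw [Nat.gcd_add_self_left]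
  have e2 : ∀ p : ℕ, p ≡ n + m [MOD m] ↔ p ≡ n [MOD m] := by
    intro p
    unfold Nat.ModEq
    rw [Nat.add_mod_right]
  simp only [e1, e2]

lemma Hb_sub (hG : PROG) (k : ℕ) (ε δ : ℝ) (hδ : 0 < δ) (hδε : δ ≤ ε) (hδ8 : δ ≤ 1 / 8) : ∃ B : ℕ,
    ∀ᶠ m : ℕ in atTop, ∀ J : ℕ, 1 ≤ J → (m : ℝ) ^ (δ / 4) ≤ J → (J : ℝ) ≤ (m : ℝ) ^ (δ / 2) →
    ∀ n : ℕ, n.Coprime m → δ * (Th m J / Nat.totient m) ≤ ff m J n → GoodK k B m ε n := by
  classical
  obtain ⟨B, x₀, hprog⟩ := prog_interval hG k (δ / 8) (δ / 2) (by positivity) (by positivity)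
  obtain ⟨N₀, hN₀⟩ := eventually_atTop.1 (pnt_unif 1)
  refine ⟨2 * B, ?_⟩
  filter_upwards [eventually_ge_atTop 2, eventually_ge_atTop x₀, eventually_ge_atTop N₀, ev_L 16,
    ev_log 0 3 (δ / 2) (by positivity)] with m hm hmx hmN hL h3 J hJ hJ4 hJ2 n hn hff
  have hmr : (2 : ℝ) ≤ m := by exact_mod_cast hm
  have hm0 : (0 : ℝ) < m := by linarith
  have hm1 : (1 : ℝ) ≤ m := by linarith
  have hJr : (1 : ℝ) ≤ J := by exact_mod_cast hJ
  have hφ : (0 : ℝ) < Nat.totient m := by exact_mod_cast Nat.totient_pos.2 (by omega : 0 < m)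
  rw [pow_zero, mul_one] at h3
  obtain ⟨N, hN⟩ : ∃ N : ℕ, N = (J + 1) * m := ⟨_, rfl⟩
  have hNr : (N : ℝ) = J * m + m := by rw [hN]; push_cast; ring
  have hmleN : m ≤ N := by rw [hN]; exact Nat.le_mul_of_pos_left m (by omega)
  have hNle : (N : ℝ) ≤ 2 * (J * m) := by rw [hNr]; nlinarith
  have hN0 : (0 : ℝ) < N := by rw [hNr]; positivity
  have hLN : Real.log m ≤ Real.log N := Real.log_le_log hm0 (by exact_mod_cast hmleN)
  have hLN0 : 0 < Real.log N := by linarith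
  have hNm : (N : ℝ) < (m : ℝ) ^ (1 + δ) := by
    have h5 : (J : ℝ) + 1 < (m : ℝ) ^ δ := by
      have e : (m : ℝ) ^ δ = (m : ℝ) ^ (δ / 2) * (m : ℝ) ^ (δ / 2) := by
        rw [← Real.rpow_add hm0]; norm_num
      rw [e]
      nlinarith
    calc (N : ℝ) = (J + 1) * m := by rw [hNr]; ring
      _ < (m : ℝ) ^ δ * m := by gcongr
      _ = (m : ℝ) ^ (1 + δ) := by rw [Real.rpow_add hm0, Real.rpow_one, mul_comm]
  have hNm2 : (N : ℝ) ≤ (m : ℝ) ^ (2 : ℝ) :=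
    hNm.le.trans (Real.rpow_le_rpow_of_exponent_le hm1 (by linarith))
  have hLN2 : Real.log N ≤ 2 * Real.log m := by
    have := Real.log_le_log hN0 hNm2
    rwa [Real.log_rpow hm0] at this
  -- the total mass
  have hTh : 1 / 2 * (J * m) ≤ Th m J := by
    have a1 := hN₀ N (hmN.trans hmleN) N (by omega)
    have a2 := hN₀ N (hmN.trans hmleN) m (by omega)
    rw [pow_one] at a1 a2
    have a3 : (N : ℝ) / Real.log N ≤ 1 / 4 * (J * m) := by
      rw [div_le_iff₀ hLN0]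
      have b1 : 8 ≤ Real.log N := by linarith
      calc (N : ℝ) ≤ 2 * (J * m) := hNle
        _ = 1 / 4 * (J * m) * 8 := by ring
        _ ≤ 1 / 4 * (J * m) * Real.log N := by gcongr
    unfold Th
    rw [← hN]
    rw [abs_le] at a1 a2
    linarith [a1.1, a2.2]
  -- the primes
  obtain ⟨P, hP⟩ : ∃ P : Finset ℕ, P = (Icc 1 N).filter (fun p => p ≡ n [MOD m] ∧ m < p ∧ p.Prime) :=
    ⟨_, rfl⟩
  have hffP : ff m J n ≤ P.card * Real.log N := by
    unfold ff WA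
    rw [← hN]
    have h1 : ∀ k ∈ (Icc 1 N).filter (fun k => k ≡ n [MOD m]), wm m k ≤
        if m < k ∧ k.Prime then Real.log N else 0 := by
      intro k hk
      rw [mem_filter, mem_Icc] at hk
      unfold wm om
      by_cases h4 : m < k
      · by_cases h5 : k.Prime
        · rw [if_pos h4, if_pos h5, if_pos ⟨h4, h5⟩]
          exact Real.log_le_log (by exact_mod_cast hk.1.1) (by exact_mod_cast hk.1.2)
        · rw [if_pos h4, if_neg h5, if_neg (fun h => h5 h.2)]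
      · rw [if_neg h4, if_neg (fun h => h4 h.1)]
    refine (sum_le_sum h1).trans (le_of_eq ?_)
    rw [← sum_filter, filter_filter, sum_const, nsmul_eq_mul, hP]
  have hcard : δ / 2 * ((J * m : ℕ) / (m.totient * Real.log ((m + J * m : ℕ) : ℝ))) ≤ P.card := by
    have e1 : m + J * m = N := by rw [hN]; ring
    rw [e1]
    have h1 : δ * (1 / 2 * (J * m) / Nat.totient m) ≤ P.card * Real.log N := by
      refine le_trans ?_ (hff.trans hffP)
      gcongr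
    push_cast
    have h2 : δ / 2 * ((J : ℝ) * m / (m.totient * Real.log N)) =
        δ * (1 / 2 * (J * m) / Nat.totient m) / Real.log N := by field_simp
    rw [h2, div_le_iff₀ hLN0]
    exact h1
  obtain ⟨p, r, hr1, hr2, hpr⟩ := hprog m (J * m) m (by omega) (by omega) (by
    have e1 : m + J * m = N := by rw [hN]; ring
    rw [e1]
    have h1 : (N : ℝ) ^ (δ / 8) ≤ J := by
      calc (N : ℝ) ^ (δ / 8) ≤ ((m : ℝ) ^ (2 : ℝ)) ^ (δ / 8) :=
            Real.rpow_le_rpow hN0.le hNm2 (by positivity)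
        _ = (m : ℝ) ^ (δ / 4) := by
            rw [← Real.rpow_mul hm0.le]; congr 1; ring
        _ ≤ J := hJ4
    push_cast
    rw [mul_comm]
    gcongr) (n : ℤ) (Nat.isCoprime_iff_coprime.2 hn) P (by
    intro p hp
    rw [hP, mem_filter, mem_Icc] at hp
    refine ⟨hp.2.2.2, hp.2.2.1, ?_, Int.natCast_modEq_iff.2 hp.2.1⟩
    have e1 : m + J * m = N := by rw [hN]; ring
    rw [e1]
    exact hp.1.2) hcard
  refine ⟨hn, p, r, hr1, ?_, fun j hj => ?_⟩
  · have e1 : m + J * m = N := by rw [hN]; ring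
    rw [e1] at hr2
    refine hr2.trans ?_
    calc Real.log N ^ B ≤ (2 * Real.log m) ^ B := pow_le_pow_left₀ hLN0.le hLN2 B
      _ ≤ (Real.log m * Real.log m) ^ B := by
          apply pow_le_pow_left₀ (by linarith)
          nlinarith
      _ = Real.log m ^ (2 * B) := by rw [← pow_two, ← pow_mul]
  · have h1 := hpr j hj
    rw [hP, mem_filter, mem_Icc] at h1
    refine ⟨h1.2.2.2, h1.2.1, ?_⟩
    have h2 : ((p + j * (m * r) : ℕ) : ℝ) ≤ N := by exact_mod_cast h1.1.2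
    refine lt_of_le_of_lt h2 (hNm.trans_le ?_)
    exact Real.rpow_le_rpow_of_exponent_le hm1 (by linarith)

open Classical in
theorem power_intH (hG : PROG) (k : ℕ) (ε : ℝ) (hε : 0 < ε) : ∃ κ : ℝ, 0 < κ ∧ ∃ B : ℕ, ∀ᶠ m : ℕ in atTop,
    ∀ x H : ℕ, (m : ℝ) ^ (1 - κ) ≤ H → H ≤ m →
      (1 / 4 - ε) * ((Nat.totient m : ℝ) / m * H) ≤ ((Ioc x (x + H)).filter (GoodK k B m ε)).card := by
  set δ : ℝ := min (ε / 4) (1 / 16) with hδdef
  have hδ : 0 < δ := lt_min (by linarith) (by norm_num)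
  have hδ8 : δ ≤ 1 / 16 := min_le_right _ _
  have hδε : δ ≤ ε / 4 := min_le_left _ _
  set κ : ℝ := δ / 16 with hκ
  have hκ0 : 0 < κ := by rw [hκ]; positivity
  set ε' : ℝ := 3 / 2 * δ with hε'
  have hε'0 : 0 < ε' := by rw [hε']; positivity
  obtain ⟨B, hgB⟩ := Hb_sub hG k ε δ hδ (by linarith) (by linarith)
  refine ⟨κ, hκ0, B, ?_⟩
  filter_upwards [inter_anaH δ hδ (by linarith), hgB, ev_L (12 / ε' + 4),
    eventually_ge_atTop 2, ev_log 1 (12 / ε') (1 / 2 - κ) (by linarith),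
    ev_log 39 1 (δ / 8) (by positivity), ev_log 0 2 (δ / 4) (by positivity)] with
    m hana hgb h1 hm hlog h39 h0 x H hH hHm
  have hmr : (2 : ℝ) ≤ m := by exact_mod_cast hm
  have hm0 : (0 : ℝ) < m := by linarith
  have hm1 : (1 : ℝ) ≤ m := by linarith
  set ℓ := Real.log m with hℓ
  have hp12 : 0 < 12 / ε' := by positivity
  have hℓ4 : 4 ≤ ℓ := by linarith
  have hℓ1 : 1 ≤ ℓ := by linarith
  have hℓ0 : 0 < ℓ := by linarith
  have hHr : (0 : ℝ) < H := lt_of_lt_of_le (by positivity) hH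
  have hHmr : (H : ℝ) ≤ m := by exact_mod_cast hHm
  -- the parameters
  set W : ℝ := ℓ ^ 3 * (m : ℝ) ^ κ with hW
  have hmκ1 : 1 ≤ (m : ℝ) ^ κ := Real.one_le_rpow hm1 hκ0.le
  have hℓ3 : (64 : ℝ) ≤ ℓ ^ 3 := by
    calc (64 : ℝ) = 4 ^ 3 := by norm_num
      _ ≤ ℓ ^ 3 := pow_le_pow_left₀ (by norm_num) hℓ4 3
  have hW3 : ℓ ^ 3 ≤ W := by rw [hW]; nlinarith
  have hW4 : 4 ≤ W := by linarith
  have hW0 : 0 < W := by linarith
  have hmW : (m : ℝ) / W ≤ H / ℓ ^ 3 := by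
    have e : (m : ℝ) / W = (m : ℝ) ^ (1 - κ) / ℓ ^ 3 := by
      rw [hW, Real.rpow_sub hm0, Real.rpow_one]
      field_simp
    rw [e]
    gcongr
  have hH64 : (H : ℝ) / ℓ ^ 3 ≤ H / 64 := by gcongr
  set J : ℕ := ⌊(m : ℝ) ^ (δ / 2)⌋₊ with hJdef
  have hJ2 : (J : ℝ) ≤ (m : ℝ) ^ (δ / 2) := Nat.floor_le (by positivity)
  have hPJ : (ℓ ^ 10 * W ^ 3) ^ 2 ≤ J := by
    have e : (ℓ ^ 10 * W ^ 3) ^ 2 = ℓ ^ 38 * (m : ℝ) ^ (3 * δ / 8) := by
      have e1 : ((m : ℝ) ^ κ) ^ 6 = (m : ℝ) ^ (3 * δ / 8) := by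
        rw [← Real.rpow_natCast, ← Real.rpow_mul hm0.le]
        congr 1
        rw [hκ]; push_cast; ring
      rw [hW, ← e1]; ring
    have h2 : 2 * (ℓ ^ 38 * (m : ℝ) ^ (3 * δ / 8)) ≤ (m : ℝ) ^ (δ / 2) := by
      rw [one_mul] at h39
      have e2 : (m : ℝ) ^ (δ / 2) = (m : ℝ) ^ (δ / 8) * (m : ℝ) ^ (3 * δ / 8) := by
        rw [← Real.rpow_add hm0]
        congr 1; ring
      rw [e2]
      calc 2 * (ℓ ^ 38 * (m : ℝ) ^ (3 * δ / 8)) = (2 * ℓ ^ 38) * (m : ℝ) ^ (3 * δ / 8) := by ring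
        _ ≤ ℓ ^ 39 * (m : ℝ) ^ (3 * δ / 8) := by
          apply mul_le_mul_of_nonneg_right _ (by positivity)
          have : ℓ ^ 39 = ℓ * ℓ ^ 38 := by ring
          rw [this]
          apply mul_le_mul_of_nonneg_right _ (by positivity)
          linarith
        _ ≤ _ := by gcongr
    have h3 := Nat.lt_floor_add_one ((m : ℝ) ^ (δ / 2))
    rw [← hJdef] at h3
    have h4 : 1 ≤ ℓ ^ 38 * (m : ℝ) ^ (3 * δ / 8) := by
      have a1 : 1 ≤ ℓ ^ 38 := one_le_pow₀ hℓ1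
      have a2 : 1 ≤ (m : ℝ) ^ (3 * δ / 8) := Real.one_le_rpow hm1 (by positivity)
      nlinarith
    rw [e]
    linarith
  have hJ1 : 1 ≤ J := by
    have h2 : 1 ≤ (ℓ ^ 10 * W ^ 3) ^ 2 := by
      apply one_le_pow₀
      have a1 : 1 ≤ ℓ ^ 10 := one_le_pow₀ hℓ1
      have a2 : 1 ≤ W ^ 3 := one_le_pow₀ (by linarith)
      nlinarith
    exact_mod_cast h2.trans hPJ
  set s : ℕ := ⌊(m : ℝ) / W⌋₊ with hs
  have hs1 : (m : ℝ) / W < s + 1 := Nat.lt_floor_add_one _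
  have hs2 : (s : ℝ) ≤ m / W := Nat.floor_le (by positivity)
  have hsH : s ≤ H := by
    have : (s : ℝ) ≤ H := by linarith
    exact_mod_cast this
  have hsm : s < m := by
    have : (s : ℝ) < m := by linarith
    exact_mod_cast this
  have hcast : ((H - s : ℕ) : ℝ) = (H : ℝ) - s := Nat.cast_sub hsH
  obtain ⟨E, hE1, hE2, hE3⟩ := hana J W hW4 hPJ hJ2 (H - s) (by omega) (by rw [hcast]; linarith)
  have hδδ : 1 / 4 - ε' ≤ (1 - δ) * (1 - δ) * (1 / 4 - δ) := by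
    rw [hε']
    have e : (1 - δ) * (1 - δ) * (1 / 4 - δ) = 1 / 4 - 3 / 2 * δ + (9 / 4 * δ ^ 2 - δ ^ 3) := by ring
    have e2 : 0 ≤ 9 / 4 * δ ^ 2 - δ ^ 3 := by
      have : δ ^ 3 = δ * δ ^ 2 := by ring
      rw [this]
      nlinarith [sq_nonneg δ]
    linarith
  have hJ4 : (m : ℝ) ^ (δ / 4) ≤ J := by
    rw [pow_zero, mul_one] at h0
    have h3 := Nat.lt_floor_add_one ((m : ℝ) ^ (δ / 2))
    rw [← hJdef] at h3
    have e2 : (m : ℝ) ^ (δ / 2) = (m : ℝ) ^ (δ / 4) * (m : ℝ) ^ (δ / 4) := by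
      rw [← Real.rpow_add hm0]
      congr 1; ring
    nlinarith
  have hmain := int_of_int (m := m) (by omega) (GoodK k B m ε) (GoodK_per k B m ε) (1 / 4 - ε')
    (by rw [hε']; linarith) W x H s hHm hs1 hsH hsm ⟨E, hE1, hE2, fun b hb hbE => by
      have h2 := hE3 b hb hbE
      have h3 : Hb δ m J b (range (H - s)) ⊆
          (range (H - s)).filter (fun a => GoodK k B m ε (a + b)) := by
        intro a ha
        unfold Hb at ha
        rw [mem_filter] at ha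
        rw [mem_filter]
        exact ⟨ha.1, hgb J hJ1 hJ4 hJ2 _ ha.2.1 ha.2.2⟩
      have h4 : ((Hb δ m J b (range (H - s))).card : ℝ) ≤
          ((range (H - s)).filter (fun a => GoodK k B m ε (a + b))).card := by
        exact_mod_cast card_le_card h3
      have h5 : ((Ab m b (range (H - s))).card : ℝ) =
          (((range (H - s)).filter (fun a => (a + b).Coprime m)).card : ℝ) := by
        unfold Pool.Agent.TH847.LM.Ab
        congr!
      rw [h5, hcast] at h2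
      have h6 := mul_le_mul_of_nonneg_right hδδ
        (Nat.cast_nonneg (α := ℝ) ((range (H - s)).filter (fun a => (a + b).Coprime m)).card)
      linarith⟩
  refine le_trans ?_ hmain
  set r : ℝ := (Nat.totient m : ℝ) / m with hr
  have hφ := phi_low m (by omega)
  rw [← hℓ] at hφ
  have hr1 : 1 ≤ 3 * ℓ * r := by
    rw [hr, mul_div_assoc', le_div_iff₀ hm0, one_mul]
    refine hφ.trans ?_
    gcongr
    linarith
  have hr0 : 0 < r := by
    by_contra hc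
    push Not at hc
    nlinarith
  have hr2 : r ≤ 1 := by
    rw [hr, div_le_one hm0]
    exact_mod_cast Nat.totient_le m
  have k0 : 12 ≤ ε' * ℓ := by
    have : 12 / ε' ≤ ℓ := by linarith
    rw [div_le_iff₀ hε'0] at this
    linarith
  have k1 : (H : ℝ) / ℓ ^ 3 ≤ ε' / 4 * (r * H) := by
    rw [div_le_iff₀ (by positivity)]
    have a1 : 4 ≤ ε' * ℓ ^ 2 / 3 := by nlinarith
    calc (H : ℝ) = 1 * H := by ring
      _ ≤ (3 * ℓ * r) * H := by gcongr
      _ = 1 / 4 * (4 * 3 * ℓ * r * H) := by ring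
      _ ≤ 1 / 4 * (ε' * ℓ ^ 2 / 3 * 3 * ℓ * r * H) := by gcongr
      _ = _ := by ring
  have k2 : √(m : ℝ) ≤ ε' / 4 * (r * H) := by
    rw [pow_one] at hlog
    have a4 : 12 * ℓ * √(m : ℝ) ≤ ε' * H := by
      have e : (m : ℝ) ^ (1 - κ) = (m : ℝ) ^ (1 / 2 - κ) * √(m : ℝ) := by
        rw [Real.sqrt_eq_rpow, ← Real.rpow_add hm0]
        congr 1; ring
      calc 12 * ℓ * √(m : ℝ) = ε' * ((12 / ε' * ℓ) * √(m : ℝ)) := by field_simp
        _ ≤ ε' * ((m : ℝ) ^ (1 / 2 - κ) * √(m : ℝ)) := by gcongr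
        _ = ε' * (m : ℝ) ^ (1 - κ) := by rw [e]
        _ ≤ _ := by gcongr
    calc √(m : ℝ) = 1 * √(m : ℝ) := by ring
      _ ≤ (3 * ℓ * r) * √(m : ℝ) := by gcongr
      _ = 1 / 4 * r * (12 * ℓ * √(m : ℝ)) := by ring
      _ ≤ 1 / 4 * r * (ε' * H) := by gcongr
      _ = _ := by ring
  have hθ1 : 1 / 4 - ε' ≤ 1 := by linarith
  have hθ0 : 0 ≤ 1 / 4 - ε' := by rw [hε']; linarith
  have k3 : (1 / 4 - ε') * (r * s) ≤ H / ℓ ^ 3 := by
    have : (0 : ℝ) ≤ s := Nat.cast_nonneg _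
    have b1 : r * s ≤ s := by nlinarith
    have b2 : 0 ≤ r * s := by positivity
    nlinarith
  have k4 : ((H : ℝ) - s) / W ≤ H / ℓ ^ 3 := by
    calc ((H : ℝ) - s) / W ≤ H / W := by
          apply div_le_div_of_nonneg_right _ hW0.le
          have : (0 : ℝ) ≤ s := Nat.cast_nonneg _
          linarith
      _ ≤ _ := by gcongr
  have k5 : (1 / 4 - ε') * (2 * √(m : ℝ)) ≤ √(m : ℝ) := by
    have := Real.sqrt_nonneg (m : ℝ)
    nlinarith
  have hrH : 0 ≤ r * H := by positivity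
  have k6 : ε' * (r * H) ≤ (ε - ε') * (r * H) := by
    apply mul_le_mul_of_nonneg_right _ hrH
    rw [hε']; linarith
  have e : (1 / 4 - ε') * (r * ((H : ℝ) - s) - 2 * √(m : ℝ)) - ((H : ℝ) - s) / W =
      (1 / 4 - ε') * (r * H) - (1 / 4 - ε') * (r * s) - (1 / 4 - ε') * (2 * √(m : ℝ)) -
        ((H : ℝ) - s) / W := by ring
  rw [e]
  linarith

end Pool.Agent.Y866.LM
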